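import Pool.Agent.Q185.SI.Nice

/-!
# Horofunctions of a step-isometry are affine
-/

namespace Pool.Agent.Q185.SI

open Filter Topology

set_option linter.unusedSectionVars false

variable {X : Type*} [NormedAddCommGroup X] [NormedSpace ℝ X]

/-- A midpoint convex function which is bounded above is constant. -/
lemma const_of_bdd {F : X → ℝ} (hc : ∀ x y, F ((1 / 2 : ℝ) • (x + y)) ≤ (F x + F y) / 2) {M : ℝ}
    (hM : ∀ x, F x ≤ M) (x y : X) : F x = F y := by
  have key : ∀ x y : X, F y ≤ F x := by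
    intro x y
    by_contra hlt
    push Not at hlt
    have h1 : ∀ n : ℕ, F x + 2 ^ n * (F y - F x) ≤ F (x + (2 : ℝ) ^ n • (y - x)) := by
      intro n
      induction n with
      | zero => simp
      | succ n ih =>
        have h2 := hc x (x + (2 : ℝ) ^ (n + 1) • (y - x))
        have h3 : (1 / 2 : ℝ) • (x + (x + (2 : ℝ) ^ (n + 1) • (y - x))) =
            x + (2 : ℝ) ^ n • (y - x) := by
          rw [← add_assoc, smul_add, smul_smul, ← two_smul ℝ x, smul_smul]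
          norm_num
          congr 1
          ring
        rw [h3] at h2
        have h4 : (2 : ℝ) ^ (n + 1) * (F y - F x) = 2 * (2 ^ n * (F y - F x)) := by ring
        rw [h4]
        linarith
    have hpos : 0 < F y - F x := by linarith
    obtain ⟨n, hn⟩ := pow_unbounded_of_one_lt ((M - F x) / (F y - F x)) (one_lt_two (α := ℝ))
    rw [div_lt_iff₀ hpos] at hn
    linarith [h1 n, hM (x + (2 : ℝ) ^ n • (y - x))]
  exact le_antisymm (key y x) (key x y)

/-- A midpoint affine `1`-Lipschitz function is affine. -/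
lemma linear_of_affine {b : X → ℝ} (hc : ∀ x y, b ((1 / 2 : ℝ) • (x + y)) = (b x + b y) / 2)
    (hl : ∀ x y, |b x - b y| ≤ ‖x - y‖) :
    ∃ h : StrongDual ℝ X, ‖h‖ ≤ 1 ∧ ∀ x, b x = h x + b 0 := by
  have hhalf : ∀ x, b ((1 / 2 : ℝ) • x) = (b x + b 0) / 2 := by
    intro x; have := hc x 0; rwa [add_zero] at this
  have hadd : ∀ x y, b (x + y) - b 0 = (b x - b 0) + (b y - b 0) := by
    intro x y
    have h1 := hc x y
    have h2 := hhalf (x + y)
    linarith
  let H : X →+ ℝ :=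
    { toFun := fun x => b x - b 0
      map_zero' := by simp
      map_add' := hadd }
  have hb : ∀ x, ‖H x‖ ≤ 1 * ‖x‖ := by
    intro x
    have := hl x 0
    rw [sub_zero] at this
    rw [one_mul]; exact this
  have hcont : Continuous H := AddMonoidHomClass.continuous_of_bound H 1 hb
  refine ⟨H.toRealLinearMap hcont, ?_, fun x => ?_⟩
  · exact ContinuousLinearMap.opNorm_le_bound _ zero_le_one fun x => hb x
  · show b x = (b x - b 0) + b 0
    ring

/-- A bounded real sequence converges along the hyperfilter. -/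
lemma exists_ulim {a : ℕ → ℝ} {C : ℝ} (h : ∀ n, |a n| ≤ C) :
    ∃ l, Tendsto a (hyperfilter ℕ : Filter ℕ) (𝓝 l) := by
  have h1 : ((hyperfilter ℕ).map a : Filter ℝ) ≤ 𝓟 (Set.Icc (-C) C) := by
    rw [le_principal_iff]
    exact Filter.mem_map.2 (Filter.Eventually.of_forall fun n => abs_le.1 (h n))
  obtain ⟨l, -, hl⟩ := (isCompact_Icc (a := -C) (b := C)).ultrafilter_le_nhds
    ((hyperfilter ℕ).map a) h1
  exact ⟨l, hl⟩

/-- Two dense families with the same integer parts of the distances, both through the origin. -/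
structure Pair {ι : Type*} (p q : ι → X) : Prop where
  hp : DenseRange p
  hq : DenseRange q
  fl : ∀ i j, ⌊‖p i - p j‖⌋ = ⌊‖q i - q j‖⌋
  zero : ∃ o, p o = 0 ∧ q o = 0

variable {ι : Type*} {p q : ι → X}

lemma Pair.symm (h : Pair p q) : Pair q p :=
  ⟨h.hq, h.hp, fun i j => (h.fl i j).symm, by obtain ⟨o, h1, h2⟩ := h.zero; exact ⟨o, h2, h1⟩⟩

lemma Pair.abs_lt (h : Pair p q) (i j : ι) : |‖q i - q j‖ - ‖p i - p j‖| < 1 :=
  Int.abs_sub_lt_one_of_floor_eq_floor (h.fl i j).symm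

lemma Pair.lt_iff (h : Pair p q) (i j : ι) (k : ℤ) : ‖p i - p j‖ < k ↔ ‖q i - q j‖ < k := by
  rw [← Int.floor_lt, ← Int.floor_lt, h.fl i j]

/-- The horofunction of a sequence of indices. -/
lemma Pair.horo (h : Pair p q) {w : ℕ → ι} {i₀ : ι} {c₀ : ℝ}
    (hw : Tendsto (fun n : ℕ => ‖p i₀ - p (w n)‖ - n) atTop (𝓝 c₀)) :
    ∃ b : X → ℝ, (∀ y, Tendsto (fun n : ℕ => ‖y - q (w n)‖ - n) (hyperfilter ℕ : Filter ℕ)
      (𝓝 (b y))) := by
  obtain ⟨C, hC⟩ := hw.bddAbove_range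
  obtain ⟨C', hC'⟩ := hw.bddBelow_range
  have key : ∀ y, ∃ l, Tendsto (fun n : ℕ => ‖y - q (w n)‖ - n) (hyperfilter ℕ : Filter ℕ)
      (𝓝 l) := by
    intro y
    apply exists_ulim (C := |C| + |C'| + 1 + ‖y - q i₀‖)
    intro n
    have h1 : ‖p i₀ - p (w n)‖ - n ≤ C := hC (Set.mem_range_self n)
    have h2 : C' ≤ ‖p i₀ - p (w n)‖ - n := hC' (Set.mem_range_self n)
    have h3 := _root_.abs_lt.1 (h.abs_lt i₀ (w n))
    have h4 : ‖y - q (w n)‖ ≤ ‖y - q i₀‖ + ‖q i₀ - q (w n)‖ := norm_sub_le_norm_sub_add_norm_sub ..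
    have h5 : ‖q i₀ - q (w n)‖ ≤ ‖y - q i₀‖ + ‖y - q (w n)‖ := by
      rw [norm_sub_rev y (q i₀)]; exact norm_sub_le_norm_sub_add_norm_sub ..
    have h6 := le_abs_self C
    have h7 := neg_abs_le C'
    have h8 := abs_nonneg C
    have h9 := abs_nonneg C'
    rw [abs_le]
    constructor <;> linarith
  choose b hb using key
  exact ⟨b, hb⟩

lemma horo_lip {w : ℕ → ι} {b : X → ℝ}
    (hb : ∀ y, Tendsto (fun n : ℕ => ‖y - q (w n)‖ - n) (hyperfilter ℕ : Filter ℕ) (𝓝 (b y)))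
    (x y : X) : |b x - b y| ≤ ‖x - y‖ := by
  have h1 := ((hb x).sub (hb y)).abs
  refine le_of_tendsto' h1 fun n => ?_
  have h2 : ‖x - q (w n)‖ - n - (‖y - q (w n)‖ - n) = ‖x - q (w n)‖ - ‖y - q (w n)‖ := by ring
  rw [h2]
  calc |‖x - q (w n)‖ - ‖y - q (w n)‖| ≤ ‖(x - q (w n)) - (y - q (w n))‖ := abs_norm_sub_norm_le _ _
    _ = ‖x - y‖ := by congr 1; abel

lemma horo_mid {w : ℕ → ι} {b : X → ℝ}
    (hb : ∀ y, Tendsto (fun n : ℕ => ‖y - q (w n)‖ - n) (hyperfilter ℕ : Filter ℕ) (𝓝 (b y)))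
    (x y : X) : b ((1 / 2 : ℝ) • (x + y)) ≤ (b x + b y) / 2 := by
  have h1 := ((hb x).add (hb y)).div_const 2
  refine le_of_tendsto_of_tendsto' (hb _) h1 fun n => ?_
  have h2 : (1 / 2 : ℝ) • (x + y) - q (w n) = (1 / 2 : ℝ) • ((x - q (w n)) + (y - q (w n))) := by
    have : x - q (w n) + (y - q (w n)) = (x + y) - (2 : ℝ) • q (w n) := by
      rw [two_smul]; abel
    rw [this, smul_sub, smul_smul]; norm_num
  have h3 : ‖(1 / 2 : ℝ) • (x + y) - q (w n)‖ ≤ (‖x - q (w n)‖ + ‖y - q (w n)‖) / 2 := by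
    rw [h2, norm_smul]
    have := norm_add_le (x - q (w n)) (y - q (w n))
    have h5 : ‖(1 / 2 : ℝ)‖ = 1 / 2 := by norm_num
    rw [h5]; linarith
  show ‖(1 / 2 : ℝ) • (x + y) - q (w n)‖ - n ≤ (‖x - q (w n)‖ - n + (‖y - q (w n)‖ - n)) / 2
  linarith

lemma Pair.horo_near (h : Pair p q) {w : ℕ → ι} {b : X → ℝ}
    (hb : ∀ y, Tendsto (fun n : ℕ => ‖y - q (w n)‖ - n) (hyperfilter ℕ : Filter ℕ) (𝓝 (b y)))
    {i : ι} {c : ℝ} (hc : Tendsto (fun n : ℕ => ‖p i - p (w n)‖ - n) atTop (𝓝 c)) :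
    |b (q i) - c| ≤ 1 := by
  have h1 := ((hb (q i)).sub (hc.mono_left Nat.hyperfilter_le_atTop)).abs
  refine le_of_tendsto' h1 fun n => ?_
  have h2 := (h.abs_lt i (w n)).le
  have h3 : ‖q i - q (w n)‖ - n - (‖p i - p (w n)‖ - n) = ‖q i - q (w n)‖ - ‖p i - p (w n)‖ := by
    ring
  rw [h3]; exact h2

lemma exists_index (hp : DenseRange p) (v : ℕ → X) :
    ∃ w : ℕ → ι, ∀ n, ‖v n - p (w n)‖ < 1 / ((n : ℝ) + 1) := by
  have : ∀ n : ℕ, ∃ i, ‖v n - p i‖ < 1 / ((n : ℝ) + 1) := by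
    intro n
    obtain ⟨i, hi⟩ := hp.exists_dist_lt (v n) (ε := 1 / ((n : ℝ) + 1)) (by positivity)
    exact ⟨i, by rwa [dist_eq_norm] at hi⟩
  choose w hw using this
  exact ⟨w, hw⟩

lemma tendsto_shift {v : ℕ → X} {w : ℕ → ι} (hw : ∀ n, ‖v n - p (w n)‖ < 1 / ((n : ℝ) + 1))
    {x : X} {c : ℝ} (hc : Tendsto (fun n : ℕ => ‖x - v n‖ - n) atTop (𝓝 c)) :
    Tendsto (fun n : ℕ => ‖x - p (w n)‖ - n) atTop (𝓝 c) := by
  have h1 : Tendsto (fun n : ℕ => (‖x - p (w n)‖ - n) - (‖x - v n‖ - n)) atTop (𝓝 0) := by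
    refine squeeze_zero_norm (fun n => ?_) tendsto_one_div_add_atTop_nhds_zero_nat
    have h2 : ‖x - p (w n)‖ - n - (‖x - v n‖ - n) = ‖x - p (w n)‖ - ‖x - v n‖ := by ring
    rw [h2, Real.norm_eq_abs]
    calc |‖x - p (w n)‖ - ‖x - v n‖| ≤ ‖(x - p (w n)) - (x - v n)‖ := abs_norm_sub_norm_le _ _
      _ = ‖v n - p (w n)‖ := by congr 1; abel
      _ ≤ 1 / ((n : ℝ) + 1) := (hw n).le
  have h3 := h1.add hc
  rw [zero_add] at h3
  refine h3.congr fun n => ?_
  ring

lemma Nice.tendsto_neg {e : X} {f : StrongDual ℝ X} (h : Nice e f) (x : X) (t : ℝ) :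
    Tendsto (fun n : ℕ => ‖x - (t - n) • e‖ - n) atTop (𝓝 (f x - t)) := by
  have h1 : Tendsto (fun n : ℕ => (n : ℝ) - t) atTop atTop :=
    tendsto_atTop_add_const_right _ (-t) tendsto_natCast_atTop_atTop
  have h2 := ((h.tendsto x).comp h1).sub_const t
  refine h2.congr fun n => ?_
  simp only [Function.comp]
  have : x + ((n : ℝ) - t) • e = x - (t - n) • e := by
    rw [sub_eq_add_neg x, ← neg_smul, neg_sub]
  rw [this]; ring

lemma Nice.tendsto_pos {e : X} {f : StrongDual ℝ X} (h : Nice e f) (x : X) :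
    Tendsto (fun n : ℕ => ‖x - (n : ℝ) • e‖ - n) atTop (𝓝 (- f x)) := by
  have h2 := (h.tendsto (-x)).comp tendsto_natCast_atTop_atTop
  rw [map_neg] at h2
  refine h2.congr fun n => ?_
  simp only [Function.comp]
  rw [← norm_neg (x - (n : ℝ) • e)]
  congr 2
  abel

/-- The functional on the target side which corresponds to `f`. -/
lemma Pair.exists_dual (h : Pair p q) {e : X} {f : StrongDual ℝ X} (hN : Nice e f) (t : ℝ) :
    ∃ k : StrongDual ℝ X, ‖k‖ ≤ 1 ∧ (∀ i, |k (q i) - f (p i)| ≤ 2) ∧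
      ∃ c, ∀ i, (f (p i) < t → k (q i) ≤ c) ∧ (t < f (p i) → c ≤ k (q i)) := by
  obtain ⟨o, ho, ho'⟩ := h.zero
  obtain ⟨w, hw⟩ := exists_index h.hp (fun n : ℕ => (t - n) • e)
  obtain ⟨w', hw'⟩ := exists_index h.hp (fun n : ℕ => (n : ℝ) • e)
  have hlim : ∀ i, Tendsto (fun n : ℕ => ‖p i - p (w n)‖ - n) atTop (𝓝 (f (p i) - t)) :=
    fun i => tendsto_shift hw (hN.tendsto_neg (p i) t)
  have hlim' : ∀ i, Tendsto (fun n : ℕ => ‖p i - p (w' n)‖ - n) atTop (𝓝 (- f (p i))) :=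
    fun i => tendsto_shift hw' (hN.tendsto_pos (p i))
  obtain ⟨b, hb⟩ := h.horo (hlim o)
  obtain ⟨b', hb'⟩ := h.horo (hlim' o)
  have hbd : ∀ x, b x + b' x ≤ 2 - t := by
    have hcb : Continuous b := by
      rw [Metric.continuous_iff]
      intro x ε hε
      refine ⟨ε, hε, fun y hy => ?_⟩
      rw [Real.dist_eq]
      rw [dist_eq_norm] at hy
      exact lt_of_le_of_lt (horo_lip hb y x) hy
    have hcb' : Continuous b' := by
      rw [Metric.continuous_iff]
      intro x ε hε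
      refine ⟨ε, hε, fun y hy => ?_⟩
      rw [Real.dist_eq]
      rw [dist_eq_norm] at hy
      exact lt_of_le_of_lt (horo_lip hb' y x) hy
    intro x
    refine h.hq.induction_on x (isClosed_le (by fun_prop) continuous_const) fun i => ?_
    have h1 := abs_le.1 (h.horo_near hb (hlim i))
    have h2 := abs_le.1 (h.horo_near hb' (hlim' i))
    linarith [h1.2, h2.2]
  have hconst := const_of_bdd (F := fun x => b x + b' x) (fun x y => by
    have h1 := horo_mid hb x y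
    have h2 := horo_mid hb' x y
    show b _ + b' _ ≤ ((b x + b' x) + (b y + b' y)) / 2
    linarith) hbd
  have haff : ∀ x y, b ((1 / 2 : ℝ) • (x + y)) = (b x + b y) / 2 := by
    intro x y
    have h1 := horo_mid hb x y
    have h2 := horo_mid hb' x y
    have h3 : b ((1 / 2 : ℝ) • (x + y)) + b' ((1 / 2 : ℝ) • (x + y)) = b x + b' x := hconst _ _
    have h4 : b y + b' y = b x + b' x := hconst _ _
    linarith
  obtain ⟨k, hk1, hk2⟩ := linear_of_affine haff (horo_lip hb)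
  have hbo := abs_le.1 (h.horo_near hb (hlim o))
  rw [ho, ho', map_zero] at hbo
  refine ⟨k, hk1, fun i => ?_, -b 0, fun i => ⟨fun hi => ?_, fun hi => ?_⟩⟩
  · have h1 := abs_le.1 (h.horo_near hb (hlim i))
    rw [hk2 (q i)] at h1
    rw [abs_le]
    constructor <;> linarith [h1.1, h1.2, hbo.1, hbo.2]
  · have h1 : b (q i) ≤ 0 := by
      refine le_of_tendsto (hb (q i)) ?_
      have h2 : ∀ᶠ n : ℕ in atTop, ‖p i - p (w n)‖ - n < 0 :=
        (hlim i).eventually_lt_const (by linarith)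
      filter_upwards [Nat.hyperfilter_le_atTop h2] with n hn
      have h3 : ‖p i - p (w n)‖ < ((n : ℤ) : ℝ) := by push_cast; linarith
      have h4 := (h.lt_iff i (w n) n).1 h3
      push_cast at h4
      linarith
    linarith [hk2 (q i)]
  · have h1 : 0 ≤ b (q i) := by
      refine ge_of_tendsto (hb (q i)) ?_
      have h2 : ∀ᶠ n : ℕ in atTop, 0 < ‖p i - p (w n)‖ - n :=
        (hlim i).eventually_const_lt (by linarith)
      filter_upwards [Nat.hyperfilter_le_atTop h2] with n hn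
      by_contra hcon
      push Not at hcon
      have h3 : ‖q i - q (w n)‖ < ((n : ℤ) : ℝ) := by push_cast; linarith
      have h4 := (h.lt_iff i (w n) n).2 h3
      push_cast at h4
      linarith
    linarith [hk2 (q i)]

end Pool.Agent.Q185.SI
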