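import Pool.Agent.Q185.SI.Horo

/-!
# The linear isometry at bounded distance from a step-isometry
-/

namespace Pool.Agent.Q185.SI

open Filter Topology

set_option linter.unusedSectionVars false

variable {X : Type*} [NormedAddCommGroup X] [NormedSpace ℝ X]

/-- A continuous linear map bounded on a dense family vanishes. -/
lemma eq_zero_of_bdd {Y : Type*} [NormedAddCommGroup Y] [NormedSpace ℝ Y] {ι : Type*} {q : ι → X}
    (hq : DenseRange q) (L : X →L[ℝ] Y) {C : ℝ} (hL : ∀ i, ‖L (q i)‖ ≤ C) : L = 0 := by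
  have h1 : ∀ x, ‖L x‖ ≤ C := fun x =>
    hq.induction_on x (isClosed_le (by fun_prop) continuous_const) hL
  ext x
  by_contra hne
  have hpos : 0 < ‖L x‖ := norm_pos_iff.2 hne
  have h2 := h1 ((C / ‖L x‖ + 1) • x)
  have hC : 0 ≤ C := (norm_nonneg _).trans (h1 0)
  rw [map_smul, norm_smul, Real.norm_of_nonneg (by positivity)] at h2
  have h3 : (C / ‖L x‖ + 1) * ‖L x‖ = C + ‖L x‖ := by field_simp
  linarith

variable {ι : Type*} {p q : ι → X}

lemma Pair.three [CompleteSpace X] [TopologicalSpace.SeparableSpace (StrongDual ℝ X)]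
    (h : Pair p q) (h0 : ∃ u : X, u ≠ 0) (i j k : ι) :
    ‖q i + q j - q k‖ ≤ ‖p i + p j - p k‖ + 6 := by
  refine le_of_forall_pos_le_add fun ε hε => ?_
  obtain ⟨e, f, hN, hf⟩ := norming (q i + q j - q k) hε h0
  obtain ⟨g, hg, hb, -⟩ := h.symm.exists_dual hN 0
  have h1 := abs_le.1 (hb i)
  have h2 := abs_le.1 (hb j)
  have h3 := abs_le.1 (hb k)
  have h4 : g (p i + p j - p k) ≤ ‖p i + p j - p k‖ := by
    calc g (p i + p j - p k) ≤ ‖g‖ * ‖p i + p j - p k‖ := (le_abs_self _).trans (g.le_opNorm _)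
      _ ≤ 1 * ‖p i + p j - p k‖ := by gcongr
      _ = _ := one_mul _
  simp only [map_add, map_sub] at h4 hf
  linarith [h1.1, h2.1, h3.2]

lemma Pair.norm_sub (h : Pair p q) (i : ι) : |‖q i‖ - ‖p i‖| < 1 := by
  obtain ⟨o, ho, ho'⟩ := h.zero
  have := h.abs_lt i o
  rwa [ho, ho', sub_zero, sub_zero] at this

/-- The data of the Hyers-Ulam sequence. -/
lemma Pair.hyers [CompleteSpace X] [TopologicalSpace.SeparableSpace (StrongDual ℝ X)]
    (h : Pair p q) (h0 : ∃ u : X, u ≠ 0) :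
    ∃ U : X →ₗᵢ[ℝ] X, ∀ i, ‖U (p i) - q i‖ ≤ 11 := by
  have hs : ∀ x : X, ∀ n : ℕ, ∃ i, ‖p i - (2 : ℝ) ^ n • x‖ < 1 := by
    intro x n
    obtain ⟨i, hi⟩ := h.hp.exists_dist_lt ((2 : ℝ) ^ n • x) one_pos
    exact ⟨i, by rwa [dist_comm, dist_eq_norm] at hi⟩
  choose s hs using hs
  let u : X → ℕ → X := fun x n => ((2 : ℝ) ^ n)⁻¹ • q (s x n)
  have hpow : ∀ n : ℕ, (0 : ℝ) < (2 : ℝ) ^ n := fun n => by positivity
  have hcauchy : ∀ x n, dist (u x n) (u x (n + 1)) ≤ 9 / 2 / 2 ^ n := by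
    intro x n
    have h1 := h.three h0 (s x n) (s x n) (s x (n + 1))
    have h2 : ‖p (s x n) + p (s x n) - p (s x (n + 1))‖ ≤ 3 := by
      have e1 : p (s x n) + p (s x n) - p (s x (n + 1)) =
          (p (s x n) - (2 : ℝ) ^ n • x) + (p (s x n) - (2 : ℝ) ^ n • x) -
            (p (s x (n + 1)) - (2 : ℝ) ^ (n + 1) • x) := by
        rw [pow_succ, mul_comm ((2 : ℝ) ^ n) 2, mul_smul, two_smul ℝ ((2 : ℝ) ^ n • x)]
        abel
      rw [e1]
      have a1 := norm_sub_le ((p (s x n) - (2 : ℝ) ^ n • x) + (p (s x n) - (2 : ℝ) ^ n • x))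
        (p (s x (n + 1)) - (2 : ℝ) ^ (n + 1) • x)
      have a2 := norm_add_le (p (s x n) - (2 : ℝ) ^ n • x) (p (s x n) - (2 : ℝ) ^ n • x)
      linarith [hs x n, hs x (n + 1)]
    have h3 : u x n - u x (n + 1) =
        ((2 : ℝ) ^ (n + 1))⁻¹ • (q (s x n) + q (s x n) - q (s x (n + 1))) := by
      simp only [u]
      rw [smul_sub, ← two_smul ℝ (q (s x n)), smul_smul]
      congr 2
      rw [pow_succ]; field_simp
    rw [dist_eq_norm, h3, norm_smul, norm_inv, Real.norm_of_nonneg (hpow _).le]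
    have h4 : (9 : ℝ) / 2 / 2 ^ n = ((2 : ℝ) ^ (n + 1))⁻¹ * 9 := by
      rw [pow_succ]; field_simp
    rw [h4]
    gcongr
    linarith
  have hlim : ∀ x, ∃ l, Tendsto (u x) atTop (𝓝 l) := fun x =>
    cauchySeq_tendsto_of_complete (cauchySeq_of_le_geometric_two (hcauchy x))
  choose U hU using hlim
  have hnear : ∀ i, ‖U (p i) - q i‖ ≤ 11 := by
    intro i
    have h1 := dist_le_of_le_geometric_two_of_tendsto₀ (hcauchy (p i)) (hU (p i))
    have h2 : u (p i) 0 = q (s (p i) 0) := by simp [u]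
    rw [h2, dist_comm, dist_eq_norm] at h1
    have h3 := hs (p i) 0
    rw [pow_zero, one_smul] at h3
    have h4 := _root_.abs_lt.1 (h.abs_lt (s (p i) 0) i)
    calc ‖U (p i) - q i‖ ≤ ‖U (p i) - q (s (p i) 0)‖ + ‖q (s (p i) 0) - q i‖ :=
          norm_sub_le_norm_sub_add_norm_sub ..
      _ ≤ 11 := by linarith [h4.2]
  have hzero : Tendsto (fun n : ℕ => ((2 : ℝ) ^ n)⁻¹ * 9) atTop (𝓝 0) := by
    have h1 : Tendsto (fun n : ℕ => ((1 / 2 : ℝ)) ^ n) atTop (𝓝 0) :=
      tendsto_pow_atTop_nhds_zero_of_lt_one (by norm_num) (by norm_num)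
    have h2 := h1.mul_const (9 : ℝ)
    rw [zero_mul] at h2
    refine h2.congr fun n => ?_
    rw [one_div, inv_pow]
  have hadd : ∀ x y, U (x + y) = U x + U y := by
    intro x y
    have h1 : Tendsto (fun n => u x n + u y n - u (x + y) n) atTop (𝓝 (U x + U y - U (x + y))) :=
      ((hU x).add (hU y)).sub (hU (x + y))
    have h2 : Tendsto (fun n => u x n + u y n - u (x + y) n) atTop (𝓝 0) := by
      refine squeeze_zero_norm (fun n => ?_) hzero
      have h3 := h.three h0 (s x n) (s y n) (s (x + y) n)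
      have h4 : ‖p (s x n) + p (s y n) - p (s (x + y) n)‖ ≤ 3 := by
        have e1 : p (s x n) + p (s y n) - p (s (x + y) n) =
            (p (s x n) - (2 : ℝ) ^ n • x) + (p (s y n) - (2 : ℝ) ^ n • y) -
              (p (s (x + y) n) - (2 : ℝ) ^ n • (x + y)) := by
          rw [smul_add]; abel
        rw [e1]
        have a1 := norm_sub_le ((p (s x n) - (2 : ℝ) ^ n • x) + (p (s y n) - (2 : ℝ) ^ n • y))
          (p (s (x + y) n) - (2 : ℝ) ^ n • (x + y))
        have a2 := norm_add_le (p (s x n) - (2 : ℝ) ^ n • x) (p (s y n) - (2 : ℝ) ^ n • y)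
        linarith [hs x n, hs y n, hs (x + y) n]
      have h5 : u x n + u y n - u (x + y) n =
          ((2 : ℝ) ^ n)⁻¹ • (q (s x n) + q (s y n) - q (s (x + y) n)) := by
        simp only [u]
        rw [smul_sub, smul_add]
      rw [h5, norm_smul, norm_inv, Real.norm_of_nonneg (hpow _).le]
      gcongr
      linarith
    have h3 := tendsto_nhds_unique h1 h2
    rw [sub_eq_zero] at h3
    exact h3.symm
  have hnorm : ∀ x, ‖U x‖ = ‖x‖ := by
    intro x
    have h1 : Tendsto (fun n => ‖u x n‖ - ‖x‖) atTop (𝓝 (‖U x‖ - ‖x‖)) :=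
      (hU x).norm.sub_const _
    have h2 : Tendsto (fun n => ‖u x n‖ - ‖x‖) atTop (𝓝 0) := by
      refine squeeze_zero_norm (fun n => ?_) hzero
      have h3 := _root_.abs_lt.1 (h.norm_sub (s x n))
      have h4 := hs x n
      have h5 := abs_le.1 ((abs_norm_sub_norm_le (p (s x n)) ((2 : ℝ) ^ n • x)).trans h4.le)
      rw [norm_smul, Real.norm_of_nonneg (hpow _).le] at h5
      have h6 : ‖u x n‖ = ((2 : ℝ) ^ n)⁻¹ * ‖q (s x n)‖ := by
        simp only [u]; rw [norm_smul, norm_inv, Real.norm_of_nonneg (hpow _).le]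
      have h7 : ‖u x n‖ - ‖x‖ = ((2 : ℝ) ^ n)⁻¹ * (‖q (s x n)‖ - 2 ^ n * ‖x‖) := by
        rw [h6]; field_simp
      rw [h7, norm_mul, norm_inv, Real.norm_of_nonneg (hpow _).le, Real.norm_eq_abs]
      gcongr
      rw [abs_le]
      constructor <;> linarith [h3.1, h3.2, h5.1, h5.2]
    have h3 := tendsto_nhds_unique h1 h2
    linarith
  let H : X →+ X := AddMonoidHom.mk' U hadd
  have hcont : Continuous H := AddMonoidHomClass.continuous_of_bound H 1 (fun x => by
    rw [one_mul]; exact (hnorm x).le)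
  refine ⟨⟨(H.toRealLinearMap hcont : X →L[ℝ] X).toLinearMap, fun x => hnorm x⟩, fun i => hnear i⟩

/-- The surjective form. -/
lemma Pair.exists_equiv [CompleteSpace X] [TopologicalSpace.SeparableSpace (StrongDual ℝ X)]
    (h : Pair p q) (h0 : ∃ u : X, u ≠ 0) :
    ∃ U : X ≃ₗᵢ[ℝ] X, ∀ i, ‖U (p i) - q i‖ ≤ 11 := by
  obtain ⟨U, hU⟩ := h.hyers h0
  obtain ⟨V, hV⟩ := h.symm.hyers h0
  have key : (U.toContinuousLinearMap.comp V.toContinuousLinearMap) -
      ContinuousLinearMap.id ℝ X = 0 := by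
    refine eq_zero_of_bdd h.hq _ (C := 22) fun i => ?_
    show ‖U (V (q i)) - q i‖ ≤ 22
    calc ‖U (V (q i)) - q i‖ ≤ ‖U (V (q i)) - U (p i)‖ + ‖U (p i) - q i‖ :=
          norm_sub_le_norm_sub_add_norm_sub ..
      _ = ‖V (q i) - p i‖ + ‖U (p i) - q i‖ := by rw [← map_sub, U.norm_map]
      _ ≤ 22 := by linarith [hU i, hV i]
  have hsurj : Function.Surjective U := by
    intro y
    refine ⟨V y, ?_⟩
    have h1 := DFunLike.congr_fun key y
    have h2 : U (V y) - y = 0 := h1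
    exact sub_eq_zero.1 h2
  exact ⟨LinearIsometryEquiv.ofSurjective U hsurj, hU⟩

end Pool.Agent.Q185.SI
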