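import Pool.Agent.Q185.SI.Rigid

/-!
# Step-isometries on dense subsets of the line
-/

namespace Pool.Agent.Q185.SI

open Filter Topology

/-- A monotone correspondence of two dense families of reals with the same integer parts of the
distances. -/
structure Corr {ι : Type*} (P Q : ι → ℝ) : Prop where
  hP : DenseRange P
  hQ : DenseRange Q
  fl : ∀ i j, ⌊|P i - P j|⌋ = ⌊|Q i - Q j|⌋
  le : ∀ i j, P i < P j → Q i ≤ Q j

namespace Corr

variable {ι : Type*} {P Q : ι → ℝ}

lemma lt_nat (h : Corr P Q) (i j : ι) (k : ℕ) : |P i - P j| < k ↔ |Q i - Q j| < k := by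
  have h1 := Int.floor_lt (a := |P i - P j|) (z := (k : ℤ))
  have h2 := Int.floor_lt (a := |Q i - Q j|) (z := (k : ℤ))
  rw [h.fl i j] at h1
  simpa using h1.symm.trans h2

lemma le' (h : Corr P Q) (i j : ι) (hij : Q i < Q j) : P i ≤ P j := by
  by_contra hcon
  push Not at hcon
  exact absurd (h.le j i hcon) (not_le.2 hij)

lemma symm (h : Corr P Q) : Corr Q P := ⟨h.hQ, h.hP, fun i j => (h.fl i j).symm, h.le'⟩

lemma exists_mem (h : Corr P Q) {a b : ℝ} (hab : a < b) : ∃ i, a < P i ∧ P i < b := by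
  obtain ⟨i, hi⟩ := h.hP.exists_mem_open isOpen_Ioo (Set.nonempty_Ioo.2 hab)
  exact ⟨i, hi.1, hi.2⟩

lemma lt (h : Corr P Q) {i j : ι} (hij : P i < P j) : Q i < Q j := by
  refine lt_of_le_of_ne (h.le i j hij) fun heq => ?_
  obtain ⟨k, hk1, hk2⟩ := h.exists_mem (show P i + 1 < P j + 1 by linarith)
  have h1 : |P k - P j| < ((1 : ℕ) : ℝ) := by
    obtain ⟨k', hk'1, hk'2⟩ := h.exists_mem (show P i < P j from hij)
    rw [_root_.abs_lt]
    by_cases hc : P j - 1 < P k
    · constructor <;> push_cast <;> linarith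
    · exfalso
      push Not at hc
      -- `P k > P i + 1` and `P k ≤ P j - 1`: the distances already differ
      have a1 : Q i ≤ Q k := h.le i k (by linarith)
      have a2 : Q k ≤ Q j := h.le k j (by linarith)
      have a3 : |P k - P j| < ((1 : ℕ) : ℝ) := by
        rw [h.lt_nat]
        have : Q k - Q j = 0 := by linarith
        rw [this]; simp
      rw [_root_.abs_lt] at a3
      push_cast at a3
      have a4 : |P k - P i| < ((1 : ℕ) : ℝ) := by
        rw [h.lt_nat]
        have : Q k - Q i = 0 := by linarith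
        rw [this]; simp
      rw [_root_.abs_lt] at a4
      push_cast at a4
      linarith [a4.2]
  have h2 : ¬ |P k - P i| < ((1 : ℕ) : ℝ) := by
    intro hlt
    rw [_root_.abs_lt] at hlt
    push_cast at hlt
    linarith [hlt.2]
  rw [h.lt_nat] at h1 h2
  rw [heq] at h2
  exact h2 h1

lemma lt_iff (h : Corr P Q) {i j : ι} : P i < P j ↔ Q i < Q j := ⟨h.lt, h.symm.lt⟩

lemma le_iff (h : Corr P Q) {i j : ι} : P i ≤ P j ↔ Q i ≤ Q j := by
  rw [← not_lt, ← not_lt, h.lt_iff]

/-- The extension. -/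
noncomputable def F (P Q : ι → ℝ) (x : ℝ) : ℝ := sSup {y | ∃ i, P i ≤ x ∧ y = Q i}

lemma nonempty (h : Corr P Q) (x : ℝ) : {y | ∃ i, P i ≤ x ∧ y = Q i}.Nonempty := by
  obtain ⟨i, -, hi⟩ := h.exists_mem (show x - 1 < x by linarith)
  exact ⟨Q i, i, hi.le, rfl⟩

lemma F_le (h : Corr P Q) {x : ℝ} {j : ι} (hj : x < P j) : F P Q x ≤ Q j := by
  apply csSup_le (h.nonempty x)
  rintro y ⟨i, hi, rfl⟩
  exact (h.lt (lt_of_le_of_lt hi hj)).le

lemma le_F (h : Corr P Q) {x : ℝ} {j : ι} (hj : P j ≤ x) : Q j ≤ F P Q x := by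
  obtain ⟨k, hk, -⟩ := h.exists_mem (show x < x + 1 by linarith)
  refine le_csSup ⟨Q k, ?_⟩ ⟨j, hj, rfl⟩
  rintro y ⟨i, hi, rfl⟩
  exact (h.lt (lt_of_le_of_lt hi hk)).le

lemma F_eq (h : Corr P Q) (i : ι) : F P Q (P i) = Q i := by
  apply le_antisymm _ (h.le_F le_rfl)
  apply csSup_le (h.nonempty _)
  rintro y ⟨j, hj, rfl⟩
  exact h.le_iff.1 hj

lemma F_strictMono (h : Corr P Q) : StrictMono (F P Q) := by
  intro x y hxy
  obtain ⟨i, hi1, hi2⟩ := h.exists_mem hxy
  obtain ⟨j, hj1, hj2⟩ := h.exists_mem hi2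
  calc F P Q x ≤ Q i := h.F_le hi1
    _ < Q j := h.lt hj1
    _ ≤ F P Q y := h.le_F hj2.le

lemma F_F (h : Corr P Q) (y : ℝ) : F P Q (F Q P y) = y := by
  apply le_antisymm
  · refine le_of_forall_pos_le_add fun ε hε => ?_
    obtain ⟨i, hi1, hi2⟩ := h.symm.exists_mem (show y < y + ε by linarith)
    have h1 : F Q P y ≤ P i := h.symm.F_le hi1
    have h2 : F P Q (F Q P y) ≤ Q i := by
      rw [← h.F_eq i]; exact h.F_strictMono.monotone h1
    linarith
  · refine le_of_forall_pos_le_add fun ε hε => ?_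
    obtain ⟨i, hi1, hi2⟩ := h.symm.exists_mem (show y - ε < y by linarith)
    have h1 : P i ≤ F Q P y := h.symm.le_F hi2.le
    have h2 := h.le_F h1
    linarith

lemma F_add (h : Corr P Q) (x : ℝ) (k : ℕ) : F P Q (x + k) = F P Q x + k := by
  have hmono := h.F_strictMono
  apply le_antisymm
  · by_contra hcon
    push Not at hcon
    obtain ⟨j, hj1, hj2⟩ := h.symm.exists_mem hcon
    obtain ⟨i, hi1, hi2⟩ := h.symm.exists_mem (show F P Q x < Q j - k by linarith)
    rw [← h.F_eq j] at hj2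
    have a1 := hmono.lt_iff_lt.1 hj2
    rw [← h.F_eq i] at hi1
    have a2 := hmono.lt_iff_lt.1 hi1
    have hk : (0 : ℝ) ≤ k := Nat.cast_nonneg k
    have a3 : P i < P j := by rw [h.lt_iff]; linarith
    have a4 : |P j - P i| < k := by rw [abs_of_pos (by linarith)]; linarith
    rw [h.lt_nat] at a4
    have a5 := (le_abs_self _).trans_lt a4
    linarith
  · by_contra hcon
    push Not at hcon
    obtain ⟨j, hj1, hj2⟩ := h.symm.exists_mem hcon
    obtain ⟨i, hi1, hi2⟩ := h.symm.exists_mem (show Q j - k < F P Q x by linarith)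
    rw [← h.F_eq j] at hj1
    have a1 := hmono.lt_iff_lt.1 hj1
    rw [← h.F_eq i] at hi2
    have a2 := hmono.lt_iff_lt.1 hi2
    have hk : (0 : ℝ) ≤ k := Nat.cast_nonneg k
    have a3 : Q i < Q j := by rw [← h.lt_iff]; linarith
    have a4 : |Q j - Q i| < k := by rw [abs_of_pos (by linarith)]; linarith
    rw [← h.lt_nat] at a4
    have a5 := (le_abs_self _).trans_lt a4
    linarith

lemma F_lt_nat (h : Corr P Q) (x y : ℝ) (k : ℕ) :
    |x - y| < k ↔ |F P Q x - F P Q y| < k := by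
  have hmono := h.F_strictMono
  have h1 : x < y + k ↔ F P Q x < F P Q y + k := by
    rw [← h.F_add, hmono.lt_iff_lt]
  have h2 : y < x + k ↔ F P Q y < F P Q x + k := by
    rw [← h.F_add, hmono.lt_iff_lt]
  rw [_root_.abs_lt, _root_.abs_lt]
  constructor
  · rintro ⟨a, b⟩
    have := h1.1 (by linarith)
    have := h2.1 (by linarith)
    constructor <;> linarith
  · rintro ⟨a, b⟩
    have := h1.2 (by linarith)
    have := h2.2 (by linarith)
    constructor <;> linarith

end Corr

/-- Equality of integer parts from all comparisons with natural numbers. -/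
lemma floor_eq_of_nat {a b : ℝ} (ha : 0 ≤ a) (hb : 0 ≤ b) (h : ∀ k : ℕ, a < k ↔ b < k) :
    ⌊a⌋ = ⌊b⌋ := by
  refine eq_of_forall_lt_iff fun c => ?_
  rw [← not_le, ← not_le, not_iff_not]
  constructor
  · intro hc
    have h0 : (0 : ℤ) ≤ c := (Int.floor_nonneg.2 ha).trans hc
    lift c to ℕ using h0
    have h1 : a < ((c + 1 : ℕ) : ℝ) := by
      have := (Int.lt_floor_add_one a)
      have h2 : ((⌊a⌋ : ℤ) : ℝ) ≤ ((c : ℤ) : ℝ) := by exact_mod_cast hc
      push_cast at h2 ⊢
      linarith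
    have h3 := (h (c + 1)).1 h1
    have h4 : ⌊b⌋ < ((c + 1 : ℕ) : ℤ) := Int.floor_lt.2 (by exact_mod_cast h3)
    push_cast at h4
    omega
  · intro hc
    have h0 : (0 : ℤ) ≤ c := (Int.floor_nonneg.2 hb).trans hc
    lift c to ℕ using h0
    have h1 : b < ((c + 1 : ℕ) : ℝ) := by
      have := (Int.lt_floor_add_one b)
      have h2 : ((⌊b⌋ : ℤ) : ℝ) ≤ ((c : ℤ) : ℝ) := by exact_mod_cast hc
      push_cast at h2 ⊢
      linarith
    have h3 := (h (c + 1)).2 h1
    have h4 : ⌊a⌋ < ((c + 1 : ℕ) : ℤ) := Int.floor_lt.2 (by exact_mod_cast h3)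
    push_cast at h4
    omega

variable {X : Type*} [NormedAddCommGroup X] [NormedSpace ℝ X] {ι : Type*} {p q : ι → X}

/-- The one-dimensional case. -/
theorem Pair.line [CompleteSpace X] [TopologicalSpace.SeparableSpace (StrongDual ℝ X)]
    (h : Pair p q) (h0 : ∃ u : X, u ≠ 0) {e₀ : X} (hdim : ∀ v : X, ∃ c : ℝ, v = c • e₀) :
    ∃ T : X → X, Function.Bijective T ∧ (∀ x y, ⌊‖x - y‖⌋ = ⌊‖T x - T y‖⌋) ∧
      ∀ i, T (p i) = q i := by
  obtain ⟨U, hU⟩ := h.exists_equiv h0
  obtain ⟨e, f, hN, -⟩ := norming (0 : X) one_pos h0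
  have hfe : f e = 1 := by rw [hN.sup.2, hN.norm]
  have hdim' : ∀ v : X, v = f v • e := by
    intro v
    obtain ⟨c, hc⟩ := hdim e
    obtain ⟨d, hd⟩ := hdim v
    have hc0 : c ≠ 0 := by
      rintro rfl
      rw [zero_smul] at hc
      have := hN.norm
      rw [hc, norm_zero] at this
      exact zero_ne_one this
    have he₀ : e₀ = c⁻¹ • e := by rw [hc, smul_smul, inv_mul_cancel₀ hc0, one_smul]
    have hv : v = (d * c⁻¹) • e := by rw [hd, he₀, smul_smul]
    have : f v = d * c⁻¹ := by rw [hv, map_smul, hfe, smul_eq_mul, mul_one]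
    rw [this]; exact hv
  have hnorm : ∀ v : X, |f v| = ‖v‖ := by
    intro v
    conv_rhs => rw [hdim' v, norm_smul, hN.norm, mul_one]
    exact (Real.norm_eq_abs _).symm
  have hsurj : Function.Surjective f := fun c => ⟨c • e, by rw [map_smul, hfe]; simp⟩
  have hinj : Function.Injective f := by
    intro x y hxy
    rw [hdim' x, hdim' y, hxy]
  set r : ι → X := fun i => U.symm (q i) with hr
  have h' : Pair p r := by
    refine ⟨h.hp, ?_, fun i j => ?_, ?_⟩
    · exact U.symm.surjective.denseRange.comp h.hq U.symm.continuous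
    · rw [h.fl i j, hr]; simp only [← map_sub, U.symm.norm_map]
    · obtain ⟨o, ho, ho'⟩ := h.zero
      exact ⟨o, ho, by simp [hr, ho']⟩
  have hC : ∀ i, ‖p i - r i‖ ≤ 11 := by
    intro i
    have : p i - r i = U.symm (U (p i) - q i) := by simp [hr]
    rw [this, U.symm.norm_map]; exact hU i
  have hcorr : Corr (fun i => f (p i)) (fun i => f (r i)) := by
    refine ⟨?_, ?_, fun i j => ?_, fun i j hij => h'.mono hC hN hij⟩
    · exact hsurj.denseRange.comp h'.hp f.continuous
    · exact hsurj.denseRange.comp h'.hq f.continuous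
    · show ⌊|f (p i) - f (p j)|⌋ = ⌊|f (r i) - f (r j)|⌋
      rw [← map_sub, ← map_sub, hnorm, hnorm]; exact h'.fl i j
  set F := Corr.F (fun i => f (p i)) (fun i => f (r i)) with hF
  set G := Corr.F (fun i => f (r i)) (fun i => f (p i)) with hG
  have hFG : ∀ y, F (G y) = y := hcorr.F_F
  have hGF : ∀ y, G (F y) = y := hcorr.symm.F_F
  refine ⟨fun x => U (F (f x) • e), ⟨?_, ?_⟩, fun x y => ?_, fun i => ?_⟩
  · intro x y hxy
    have h1 := U.injective hxy
    have h2 : F (f x) = F (f y) := by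
      have := congrArg f h1
      simpa [hfe] using this
    have h3 : f x = f y := by rw [← hGF (f x), h2, hGF]
    exact hinj h3
  · intro y
    refine ⟨G (f (U.symm y)) • e, ?_⟩
    show U (F (f (G (f (U.symm y)) • e)) • e) = y
    have h1 : f (G (f (U.symm y)) • e) = G (f (U.symm y)) := by
      rw [map_smul, hfe, smul_eq_mul, mul_one]
    rw [h1, hFG, ← hdim']
    simp
  · apply floor_eq_of_nat (norm_nonneg _) (norm_nonneg _)
    intro k
    have h1 : U (F (f x) • e) - U (F (f y) • e) = U ((F (f x) - F (f y)) • e) := by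
      rw [sub_smul, map_sub]
    rw [h1, U.norm_map, norm_smul, hN.norm, mul_one, Real.norm_eq_abs, ← hnorm (x - y), map_sub]
    exact hcorr.F_lt_nat (f x) (f y) k
  · show U (F (f (p i)) • e) = q i
    have h1 : F (f (p i)) = f (r i) := hcorr.F_eq i
    rw [h1, ← hdim', hr]
    simp

end Pool.Agent.Q185.SI
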