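import Mathlib

/-!
# Points of norm continuity of the duality map when the dual is separable
-/

namespace Pool.Agent.Q185.SI

open Filter Topology

variable {X : Type*} [NormedAddCommGroup X] [NormedSpace ℝ X]

/-- `f` is a supporting functional at `x`. -/
def Sup (x : X) (f : StrongDual ℝ X) : Prop := ‖f‖ ≤ 1 ∧ f x = ‖x‖

lemma exists_sup (x : X) : ∃ f : StrongDual ℝ X, Sup x f := by
  obtain ⟨f, hf, hx⟩ := exists_dual_vector'' ℝ x
  exact ⟨f, hf, by simpa using hx⟩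

lemma Sup.le {x : X} {f : StrongDual ℝ X} (h : Sup x f) (y : X) : f y ≤ ‖y‖ := by
  calc f y ≤ ‖f y‖ := le_abs_self _
    _ ≤ ‖f‖ * ‖y‖ := f.le_opNorm y
    _ ≤ 1 * ‖y‖ := by gcongr; exact h.1
    _ = ‖y‖ := one_mul _

lemma Sup.mono {x y : X} {f g : StrongDual ℝ X} (hf : Sup x f) (hg : Sup y g) :
    f (y - x) ≤ g (y - x) := by
  have h1 := hf.le y
  have h2 := hg.le x
  have h3 := hf.2
  have h4 := hg.2
  simp only [map_sub]
  linarith

/-- The set of the points which have a supporting functional in the ball of centre `g` and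
radius `r`. -/
def Near (g : StrongDual ℝ X) (r : ℝ) : Set X := {x | ∃ f, Sup x f ∧ ‖f - g‖ ≤ r}

lemma near_bound {g : StrongDual ℝ X} {r : ℝ} {x : X} (hx : x ∈ interior (closure (Near g r)))
    {f : StrongDual ℝ X} (hf : Sup x f) : ‖f - g‖ ≤ r := by
  have hcl : IsClosed {y : X | f (y - x) ≤ g (y - x) + r * ‖y - x‖} :=
    isClosed_le (by fun_prop) (by fun_prop)
  have hsub : closure (Near g r) ⊆ {y : X | f (y - x) ≤ g (y - x) + r * ‖y - x‖} := by
    apply closure_minimal _ hcl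
    rintro y ⟨k, hk, hkg⟩
    have h1 := Sup.mono hf hk
    have h2 : (k - g) (y - x) ≤ ‖k - g‖ * ‖y - x‖ := (le_abs_self _).trans ((k - g).le_opNorm _)
    have h3 : ‖k - g‖ * ‖y - x‖ ≤ r * ‖y - x‖ := by gcongr
    simp only [sub_apply] at h2
    show f (y - x) ≤ g (y - x) + r * ‖y - x‖
    linarith
  obtain ⟨ε, hε, hball⟩ := Metric.isOpen_iff.1 isOpen_interior x hx
  have hpt : ∀ h : X, f h ≤ g h + r * ‖h‖ := by
    intro h
    by_cases h0 : h = 0
    · subst h0; simp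
    have hn : 0 < ‖h‖ := norm_pos_iff.2 h0
    set t : ℝ := ε / (2 * ‖h‖) with ht
    have htp : 0 < t := by positivity
    have hmem : x + t • h ∈ interior (closure (Near g r)) := by
      apply hball
      rw [Metric.mem_ball, dist_eq_norm, add_sub_cancel_left, norm_smul, Real.norm_of_nonneg htp.le,
        ht]
      have : ε / (2 * ‖h‖) * ‖h‖ = ε / 2 := by field_simp
      rw [this]; linarith
    have h1 := hsub (interior_subset hmem)
    simp only [Set.mem_ofPred_eq, add_sub_cancel_left, map_smul, smul_eq_mul, norm_smul,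
      Real.norm_of_nonneg htp.le] at h1
    have h2 : t * f h ≤ t * (g h + r * ‖h‖) := by linarith
    exact le_of_mul_le_mul_left h2 htp
  have hr : 0 ≤ r := by
    by_contra hr
    push Not at hr
    obtain ⟨y, k, hk, hkg⟩ := (closure_nonempty_iff).1 ⟨x, interior_subset hx⟩
    linarith [norm_nonneg (k - g)]
  refine ContinuousLinearMap.opNorm_le_bound _ hr fun h => ?_
  rw [Real.norm_eq_abs, abs_le]
  have h1 := hpt h
  have h2 := hpt (-h)
  simp only [map_neg, norm_neg] at h2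
  simp only [sub_apply]
  constructor <;> linarith

/-- The duality map is norm continuous at `e`. -/
def Cts (e : X) : Prop := ∀ ε > 0, ∃ δ > 0, ∀ e' : X, ‖e' - e‖ < δ →
  ∀ f f' : StrongDual ℝ X, Sup e f → Sup e' f' → ‖f' - f‖ ≤ ε

lemma dense_cts [CompleteSpace X] [TopologicalSpace.SeparableSpace (StrongDual ℝ X)] :
    Dense {e : X | Cts e} := by
  obtain ⟨g, hg⟩ := TopologicalSpace.exists_dense_seq (StrongDual ℝ X)
  have h1 : ∀ n : ℕ, Dense (⋃ m, interior (closure (Near (g m) (1 / ((n : ℝ) + 1))))) := by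
    intro n
    apply dense_iUnion_interior_of_closed (fun m => isClosed_closure)
    rw [Set.eq_univ_iff_forall]
    intro x
    obtain ⟨f, hf⟩ := exists_sup x
    have hn : (0 : ℝ) < 1 / ((n : ℝ) + 1) := by positivity
    obtain ⟨m, hm⟩ := hg.exists_dist_lt f hn
    refine Set.mem_iUnion.2 ⟨m, subset_closure ⟨f, hf, ?_⟩⟩
    rw [← dist_eq_norm]; exact hm.le
  have h2 : Dense (⋂ n : ℕ, ⋃ m, interior (closure (Near (g m) (1 / ((n : ℝ) + 1))))) :=
    dense_iInter_of_isOpen (fun n => isOpen_iUnion fun m => isOpen_interior) h1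
  apply h2.mono
  intro e he ε hε
  rw [Set.mem_iInter] at he
  obtain ⟨n, hn⟩ := exists_nat_one_div_lt (half_pos hε)
  obtain ⟨m, hm⟩ := Set.mem_iUnion.1 (he n)
  obtain ⟨δ, hδ, hball⟩ := Metric.isOpen_iff.1 isOpen_interior e hm
  refine ⟨δ, hδ, fun e' he' f f' hf hf' => ?_⟩
  have h3 := near_bound hm hf
  have h4 := near_bound (hball (by rwa [Metric.mem_ball, dist_eq_norm])) hf'
  calc ‖f' - f‖ = ‖(f' - g m) - (f - g m)‖ := by congr 1; abel
    _ ≤ ‖f' - g m‖ + ‖f - g m‖ := norm_sub_le _ _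
    _ ≤ ε := by linarith

lemma sup_smul {x : X} {f : StrongDual ℝ X} {t : ℝ} (ht : 0 < t) : Sup (t • x) f ↔ Sup x f := by
  unfold Sup
  rw [map_smul, smul_eq_mul, norm_smul, Real.norm_of_nonneg ht.le]
  constructor
  · rintro ⟨h1, h2⟩
    exact ⟨h1, mul_left_cancel₀ ht.ne' h2⟩
  · rintro ⟨h1, h2⟩
    exact ⟨h1, by rw [h2]⟩

lemma Cts.smul {e : X} (h : Cts e) {t : ℝ} (ht : 0 < t) : Cts (t • e) := by
  intro ε hε
  obtain ⟨δ, hδ, H⟩ := h ε hε
  refine ⟨t * δ, mul_pos ht hδ, fun e' he' f f' hf hf' => ?_⟩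
  refine H (t⁻¹ • e') ?_ f f' ((sup_smul ht).1 hf) ((sup_smul (inv_pos.2 ht)).2 hf')
  have h1 : t⁻¹ • e' - e = t⁻¹ • (e' - t • e) := by
    rw [smul_sub, smul_smul, inv_mul_cancel₀ ht.ne', one_smul]
  rw [h1, norm_smul, Real.norm_of_nonneg (inv_pos.2 ht).le, inv_mul_lt_iff₀ ht]
  exact he'

/-- A unit vector `e` of norm continuity of the duality map, `f` its supporting functional. -/
structure Nice (e : X) (f : StrongDual ℝ X) : Prop where
  norm : ‖e‖ = 1
  sup : Sup e f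
  cts : Cts e

lemma exists_nice [CompleteSpace X] [TopologicalSpace.SeparableSpace (StrongDual ℝ X)]
    {v : X} (hv : ‖v‖ = 1) {δ : ℝ} (hδ : 0 < δ) : ∃ e f, Nice e f ∧ ‖e - v‖ < δ := by
  have h1 : ContinuousAt (fun x : X => ‖x‖⁻¹ • x) v := by
    apply ContinuousAt.smul _ continuousAt_id
    exact continuous_norm.continuousAt.inv₀ (by rw [hv]; norm_num)
  have h2 : (fun x : X => ‖x‖⁻¹ • x) v = v := by simp [hv]
  have h3 : ∀ᶠ x in 𝓝 v, ‖‖x‖⁻¹ • x - v‖ < δ := by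
    have := Metric.tendsto_nhds.1 h1.tendsto δ hδ
    simpa [dist_eq_norm, hv] using this
  have h4 : ∀ᶠ x in 𝓝 v, x ≠ 0 := by
    apply isOpen_ne.mem_nhds
    intro h; rw [h, norm_zero] at hv; exact zero_ne_one hv
  obtain ⟨x, hx3, hx1, hx2⟩ := (dense_cts (X := X)).inter_nhds_nonempty (h3.and h4)
  have hx0 : 0 < ‖x‖ := norm_pos_iff.2 hx2
  obtain ⟨f, hf⟩ := exists_sup (‖x‖⁻¹ • x)
  refine ⟨‖x‖⁻¹ • x, f, ⟨?_, hf, hx3.smul (inv_pos.2 hx0)⟩, hx1⟩
  rw [norm_smul, norm_inv, norm_norm, inv_mul_cancel₀ hx0.ne']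

/-- The Busemann function of the direction `e` is `f`. -/
lemma Nice.tendsto {e : X} {f : StrongDual ℝ X} (h : Nice e f) (x : X) :
    Tendsto (fun s : ℝ => ‖x + s • e‖ - s) atTop (𝓝 (f x)) := by
  rw [Metric.tendsto_atTop]
  intro ε hε
  obtain ⟨δ, hδ, H⟩ := h.cts (ε / (2 * (‖x‖ + 1))) (by positivity)
  refine ⟨(‖x‖ + 1) / δ + 1, fun s hs => ?_⟩
  have hs0 : 0 < s := lt_of_lt_of_le (by positivity) hs
  obtain ⟨k, hk⟩ := exists_sup (x + s • e)
  have hk' : Sup (e + s⁻¹ • x) k := by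
    have : x + s • e = s • (e + s⁻¹ • x) := by
      rw [smul_add, smul_smul, mul_inv_cancel₀ hs0.ne', one_smul, add_comm]
    rw [this] at hk
    exact (sup_smul hs0).1 hk
  have h1 : ‖k - f‖ ≤ ε / (2 * (‖x‖ + 1)) := by
    refine H _ ?_ f k h.sup hk'
    rw [add_sub_cancel_left, norm_smul, norm_inv, Real.norm_of_nonneg hs0.le, inv_mul_lt_iff₀ hs0]
    have : (‖x‖ + 1) / δ < s := by linarith
    rw [div_lt_iff₀ hδ] at this
    linarith
  have h2 : (k - f) x ≤ ε / 2 := by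
    calc (k - f) x ≤ ‖k - f‖ * ‖x‖ := (le_abs_self _).trans ((k - f).le_opNorm _)
      _ ≤ ε / (2 * (‖x‖ + 1)) * (‖x‖ + 1) := by gcongr; linarith
      _ = ε / 2 := by field_simp
  have h3 : f x + s ≤ ‖x + s • e‖ := by
    have := h.sup.le (x + s • e)
    rw [map_add, map_smul, h.sup.2, h.norm] at this
    simpa using this
  have h4 : ‖x + s • e‖ ≤ k x + s := by
    rw [← hk.2, map_add, map_smul, smul_eq_mul]
    have := hk.le e
    rw [h.norm] at this
    have : s * k e ≤ s * 1 := by gcongr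
    linarith
  simp only [sub_apply] at h2
  rw [Real.dist_eq, abs_lt]
  constructor <;> linarith

lemma norming [CompleteSpace X] [TopologicalSpace.SeparableSpace (StrongDual ℝ X)]
    (v : X) {ε : ℝ} (hε : 0 < ε) (h0 : ∃ u : X, u ≠ 0) :
    ∃ e f, Nice (X := X) e f ∧ ‖v‖ - ε ≤ f v := by
  by_cases hv : v = 0
  · subst hv
    obtain ⟨u, hu⟩ := h0
    have hu' : 0 < ‖u‖ := norm_pos_iff.2 hu
    obtain ⟨e, f, hN, -⟩ := exists_nice (v := ‖u‖⁻¹ • u)
      (by rw [norm_smul, norm_inv, norm_norm, inv_mul_cancel₀ hu'.ne']) one_pos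
    exact ⟨e, f, hN, by simp; exact hε.le⟩
  · have hv' : 0 < ‖v‖ := norm_pos_iff.2 hv
    obtain ⟨e, f, hN, hd⟩ := exists_nice (v := ‖v‖⁻¹ • v)
      (by rw [norm_smul, norm_inv, norm_norm, inv_mul_cancel₀ hv'.ne'])
      (div_pos hε hv')
    refine ⟨e, f, hN, ?_⟩
    have h1 : f (e - ‖v‖⁻¹ • v) ≤ ‖e - ‖v‖⁻¹ • v‖ := hN.sup.le _
    rw [map_sub, map_smul, hN.sup.2, hN.norm, smul_eq_mul] at h1
    have h2 : 1 - ‖v‖⁻¹ * f v < ε / ‖v‖ := lt_of_le_of_lt h1 hd
    have h3 : ‖v‖ * (1 - ‖v‖⁻¹ * f v) < ‖v‖ * (ε / ‖v‖) := mul_lt_mul_of_pos_left h2 hv'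
    have h4 : ‖v‖ * (1 - ‖v‖⁻¹ * f v) = ‖v‖ - f v := by field_simp
    have h5 : ‖v‖ * (ε / ‖v‖) = ε := by field_simp
    rw [h4, h5] at h3
    linarith

end Pool.Agent.Q185.SI
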