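import Pool.Agent.Q185.SI.Hyers

/-!
# Step-isometries of strictly convex spaces of dimension at least two are isometries
-/

namespace Pool.Agent.Q185.SI

open Filter Topology

set_option linter.unusedSectionVars false

variable {X : Type*} [NormedAddCommGroup X] [NormedSpace ℝ X] {ι : Type*} {p q : ι → X}

lemma Nice.abs_le {e : X} {f : StrongDual ℝ X} (h : Nice e f) (x : X) : |f x| ≤ ‖x‖ := by
  rw [_root_.abs_le]
  have h1 := h.sup.le x
  have h2 := h.sup.le (-x)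
  rw [map_neg, norm_neg] at h2
  constructor <;> linarith

lemma Pair.mono (h : Pair p q) {C : ℝ} (hC : ∀ i, ‖p i - q i‖ ≤ C) {e : X} {f : StrongDual ℝ X}
    (hN : Nice e f) {i j : ι} (hij : f (p i) < f (p j)) : f (q i) ≤ f (q j) := by
  obtain ⟨t, ht1, ht2⟩ := exists_between hij
  obtain ⟨k, -, hk2, c, hc⟩ := h.exists_dual hN t
  have hkf : k - f = 0 := by
    refine eq_zero_of_bdd h.hq (k - f) (C := 2 + C) fun l => ?_
    have h1 := _root_.abs_le.1 (hk2 l)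
    have h2 := _root_.abs_le.1 ((hN.abs_le (p l - q l)).trans (hC l))
    rw [map_sub] at h2
    rw [Real.norm_eq_abs, _root_.abs_le]
    simp only [sub_apply]
    constructor <;> linarith [h1.1, h1.2, h2.1, h2.2]
  rw [sub_eq_zero] at hkf
  subst hkf
  exact ((hc i).1 ht1).trans ((hc j).2 ht2)

variable [CompleteSpace X] [TopologicalSpace.SeparableSpace (StrongDual ℝ X)]

lemma exists_close (hsc : ∀ x y : X, ‖x‖ = 1 → ‖y‖ = 1 → x ≠ y → ‖(1 / 2 : ℝ) • (x + y)‖ < 1)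
    (hdim : ∀ e : X, ∃ v : X, ∀ c : ℝ, v ≠ c • e) {e : X} {f : StrongDual ℝ X} (hN : Nice e f)
    {ε : ℝ} (hε : 0 < ε) : ∃ e' g, Nice (X := X) e' g ∧ ‖g - f‖ ≤ ε ∧ g ≠ f := by
  obtain ⟨δ, hδ, H⟩ := hN.cts ε hε
  obtain ⟨w, hw⟩ := hdim e
  have hcont : ContinuousAt (fun s : ℝ => ‖e + s • w‖⁻¹ • (e + s • w)) 0 := by
    apply ContinuousAt.smul _ (by fun_prop)
    apply ContinuousAt.inv₀ (by fun_prop)
    rw [zero_smul, add_zero, hN.norm]; norm_num
  obtain ⟨η, hη, hη2⟩ := Metric.continuousAt_iff.1 hcont (δ / 2) (half_pos hδ)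
  have hη3 : dist (η / 2) 0 < η := by
    rw [Real.dist_eq, sub_zero, abs_of_pos (half_pos hη)]; linarith
  have h1 := hη2 hη3
  simp only [zero_smul, add_zero, hN.norm, inv_one, one_smul, dist_eq_norm] at h1
  have hne : e + (η / 2) • w ≠ 0 := by
    intro h0
    apply hw (-(η / 2)⁻¹)
    have h2 : (η / 2) • w = -e := by rw [← sub_eq_zero, sub_neg_eq_add, add_comm]; exact h0
    have h3 : w = (η / 2)⁻¹ • ((η / 2) • w) := by
      rw [smul_smul, inv_mul_cancel₀ (half_pos hη).ne', one_smul]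
    rw [h3, h2, smul_neg, neg_smul]
  set v := ‖e + (η / 2) • w‖⁻¹ • (e + (η / 2) • w) with hv
  have hnpos : 0 < ‖e + (η / 2) • w‖ := norm_pos_iff.2 hne
  have hv1 : ‖v‖ = 1 := by
    rw [hv, norm_smul, norm_inv, norm_norm, inv_mul_cancel₀ hnpos.ne']
  have hve : v ≠ e := by
    intro h0
    have h2 : e + (η / 2) • w = ‖e + (η / 2) • w‖ • e := by
      have : ‖e + (η / 2) • w‖ • v = e + (η / 2) • w := by
        rw [hv, smul_smul, mul_inv_cancel₀ hnpos.ne', one_smul]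
      rw [h0] at this; exact this.symm
    apply hw ((η / 2)⁻¹ * (‖e + (η / 2) • w‖ - 1))
    have h3 : (η / 2) • w = (‖e + (η / 2) • w‖ - 1) • e := by
      rw [sub_smul, one_smul, ← h2, add_sub_cancel_left]
    have h4 : w = (η / 2)⁻¹ • ((η / 2) • w) := by
      rw [smul_smul, inv_mul_cancel₀ (half_pos hη).ne', one_smul]
    rw [mul_smul, ← h3]
    exact h4
  have hpos : 0 < ‖v - e‖ := norm_pos_iff.2 (sub_ne_zero.2 hve)
  obtain ⟨e', g, hN', hd⟩ := exists_nice hv1 (lt_min (half_pos hδ) hpos)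
  have hd1 : ‖e' - v‖ < δ / 2 := lt_of_lt_of_le hd (min_le_left _ _)
  have hd2 : ‖e' - v‖ < ‖v - e‖ := lt_of_lt_of_le hd (min_le_right _ _)
  have hne' : e ≠ e' := by
    intro h0
    rw [← h0, norm_sub_rev] at hd2
    exact lt_irrefl _ hd2
  have hclose : ‖e' - e‖ < δ := by
    calc ‖e' - e‖ ≤ ‖e' - v‖ + ‖v - e‖ := norm_sub_le_norm_sub_add_norm_sub ..
      _ < δ := by linarith
  refine ⟨e', g, hN', H e' hclose f g hN.sup hN'.sup, ?_⟩
  intro hgf
  have h2 := hsc e e' hN.norm hN'.norm hne'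
  have h3 := hN.sup.le ((1 / 2 : ℝ) • (e + e'))
  have h4 : f e' = 1 := by rw [← hgf, hN'.sup.2, hN'.norm]
  rw [map_smul, map_add, hN.sup.2, hN.norm, h4, smul_eq_mul] at h3
  linarith

omit [CompleteSpace X] [TopologicalSpace.SeparableSpace (StrongDual ℝ X)] in
lemma exists_indep {e e' : X} {f g : StrongDual ℝ X} (hN : Nice e f) (hN' : Nice e' g)
    (hfg : ‖g - f‖ ≤ 1) (hne : g ≠ f) : ∃ d, f d = 0 ∧ g d = 1 := by
  by_contra hcon
  push Not at hcon
  have h1 : ∀ d, f d = 0 → g d = 0 := by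
    intro d hd
    by_contra h0
    apply hcon ((g d)⁻¹ • d)
    · rw [map_smul, hd, smul_zero]
    · rw [map_smul, smul_eq_mul, inv_mul_cancel₀ h0]
  have hfe : f e = 1 := by rw [hN.sup.2, hN.norm]
  have hge' : g e' = 1 := by rw [hN'.sup.2, hN'.norm]
  have h2 : ∀ x, g x = f x * g e := by
    intro x
    have h3 := h1 (x - f x • e) (by rw [map_sub, map_smul, hfe, smul_eq_mul, mul_one, sub_self])
    rw [map_sub, map_smul, smul_eq_mul] at h3
    linarith
  have h3 : |(g - f) e| ≤ 1 := by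
    calc |(g - f) e| ≤ ‖g - f‖ * ‖e‖ := (g - f).le_opNorm e
      _ ≤ 1 * 1 := by rw [hN.norm]; gcongr
      _ = 1 := one_mul _
  rw [sub_apply, hfe] at h3
  have h4 := (_root_.abs_le.1 h3).1
  have h5 : g e ≤ 1 := by have := hN'.sup.le e; rwa [hN.norm] at this
  have h6 : f e' ≤ 1 := by have := hN.sup.le e'; rwa [hN'.norm] at this
  have h7 := h2 e'
  rw [hge'] at h7
  have h8 : g e = 1 := by nlinarith
  apply hne
  ext x
  rw [h2 x, h8, mul_one]

lemma Pair.ineq (hsc : ∀ x y : X, ‖x‖ = 1 → ‖y‖ = 1 → x ≠ y → ‖(1 / 2 : ℝ) • (x + y)‖ < 1)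
    (hdim : ∀ e : X, ∃ v : X, ∀ c : ℝ, v ≠ c • e) (h : Pair p q) (hC : ∀ i, ‖p i - q i‖ ≤ 11)
    {e : X} {f : StrongDual ℝ X} (hN : Nice e f) (i j : ι) :
    f (q j) ≤ f (q i) + f (p j) - f (p i) := by
  refine le_of_forall_pos_le_add fun η hη => ?_
  set K : ℝ := 15 + ‖q j‖ + ‖p j‖ with hK
  have hKpos : 0 < K := by positivity
  set ε : ℝ := min 1 (η / K) with hεdef
  have hε : 0 < ε := lt_min one_pos (div_pos hη hKpos)
  have hε1 : ε ≤ 1 := min_le_left _ _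
  have hεK : ε * K ≤ η := by
    have : ε ≤ η / K := min_le_right _ _
    rwa [le_div_iff₀ hKpos] at this
  obtain ⟨e', g, hN', hgf, hne⟩ := exists_close hsc hdim hN hε
  obtain ⟨d, hd1, hd2⟩ := exists_indep hN hN' (hgf.trans hε1) hne
  have hfe : f e = 1 := by rw [hN.sup.2, hN.norm]
  set a : ℝ := f (p i) - ε with ha
  set b : ℝ := g (p j) + ε with hb
  obtain ⟨m, hm⟩ := h.hp.exists_dist_lt (a • e + (b - a * g e) • d) hε
  rw [dist_eq_norm] at hm
  have hf1 : f (a • e + (b - a * g e) • d) = a := by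
    rw [map_add, map_smul, map_smul, hfe, hd1]; simp
  have hg1 : g (a • e + (b - a * g e) • d) = b := by
    rw [map_add, map_smul, map_smul, hd2]; simp
  have hfm := (hN.abs_le (a • e + (b - a * g e) • d - p m)).trans_lt hm
  have hgm := (hN'.abs_le (a • e + (b - a * g e) • d - p m)).trans_lt hm
  rw [map_sub, hf1, _root_.abs_lt] at hfm
  rw [map_sub, hg1, _root_.abs_lt] at hgm
  have m1 : g (q j) ≤ g (q m) := h.mono hC hN' (by linarith [hgm.1, hgm.2])
  have m2 : f (q m) ≤ f (q i) := h.mono hC hN (by linarith [hfm.1, hfm.2])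
  have bd : ∀ x, |g x - f x| ≤ ε * ‖x‖ := by
    intro x
    have := (g - f).le_opNorm x
    rw [sub_apply, Real.norm_eq_abs] at this
    exact this.trans (by gcongr)
  have b1 := _root_.abs_le.1 (bd (p m - q m))
  have b2 := _root_.abs_le.1 (bd (q j))
  have b3 := _root_.abs_le.1 (bd (p j))
  rw [map_sub, map_sub] at b1
  have b4 : ε * ‖p m - q m‖ ≤ ε * 11 := by gcongr; exact hC m
  have e1 : ε * K = 15 * ε + ε * ‖q j‖ + ε * ‖p j‖ := by rw [hK]; ring
  linarith [b1.1, b1.2, b2.1, b2.2, b3.1, b3.2, hfm.1, hfm.2, hgm.1, hgm.2]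

lemma Pair.eq (hsc : ∀ x y : X, ‖x‖ = 1 → ‖y‖ = 1 → x ≠ y → ‖(1 / 2 : ℝ) • (x + y)‖ < 1)
    (hdim : ∀ e : X, ∃ v : X, ∀ c : ℝ, v ≠ c • e) (h : Pair p q) (hC : ∀ i, ‖p i - q i‖ ≤ 11)
    (i : ι) : q i = p i := by
  obtain ⟨o, ho, ho'⟩ := h.zero
  have h0 : ∃ u : X, u ≠ 0 := by
    obtain ⟨v, hv⟩ := hdim 0
    exact ⟨v, fun h => hv 1 (by rw [h, smul_zero])⟩
  rw [← sub_eq_zero, ← norm_le_zero_iff]
  refine le_of_forall_pos_le_add fun ε hε => ?_
  obtain ⟨e, f, hN, hf⟩ := norming (q i - p i) hε h0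
  have h1 := h.ineq hsc hdim hC hN o i
  have h2 := h.ineq hsc hdim hC hN i o
  rw [ho, ho', map_zero] at h1 h2
  rw [map_sub] at hf
  linarith

/-- In dimension at least two every step-isometry between dense sets is an isometry. -/
theorem Pair.isometry (hsc : ∀ x y : X, ‖x‖ = 1 → ‖y‖ = 1 → x ≠ y → ‖(1 / 2 : ℝ) • (x + y)‖ < 1)
    (hdim : ∀ e : X, ∃ v : X, ∀ c : ℝ, v ≠ c • e) (h : Pair p q) :
    ∃ U : X ≃ₗᵢ[ℝ] X, ∀ i, q i = U (p i) := by
  have h0 : ∃ u : X, u ≠ 0 := by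
    obtain ⟨v, hv⟩ := hdim 0
    exact ⟨v, fun h => hv 1 (by rw [h, smul_zero])⟩
  obtain ⟨U, hU⟩ := h.exists_equiv h0
  have h' : Pair p (fun i => U.symm (q i)) := by
    refine ⟨h.hp, ?_, fun i j => ?_, ?_⟩
    · exact U.symm.surjective.denseRange.comp h.hq U.symm.continuous
    · rw [h.fl i j, ← map_sub, U.symm.norm_map]
    · obtain ⟨o, ho, ho'⟩ := h.zero
      exact ⟨o, ho, by simp [ho']⟩
  have hC : ∀ i, ‖p i - U.symm (q i)‖ ≤ 11 := by
    intro i
    have : p i - U.symm (q i) = U.symm (U (p i) - q i) := by simp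
    rw [this, U.symm.norm_map]; exact hU i
  refine ⟨U, fun i => ?_⟩
  have := h'.eq hsc hdim hC i
  rw [← this]; simp

end Pool.Agent.Q185.SI
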